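import Pool.Agent.K3h76.CR.Nz

set_option autoImplicit false

open Set Filter Topology MeasureTheory Metric

namespace Pool.Agent.K3h76.CR

open Pool.Agent.K3h20.CR

theorem ex_eta (d K M1 A μ B3 m : ℝ) (hd : 0 < d) (hK : 0 < K) (hM : 0 < M1) (hA : 0 < A)
    (hμ : 0 < μ) (hB : 0 < B3) (hm : 0 < m) :
    ∃ η : ℝ, 0 < η ∧ η ≤ 1 ∧ η ≤ d ∧ K * η ≤ 1 / 2 ∧ M1 * (2 * η) ≤ A / 2 ∧ 4 * η ≤ A ∧
      3 / 2 * A * η ≤ μ ∧ B3 * (2 * η + 4 / 3 * η) ≤ m := by
  refine ⟨min 1 (min d (min (1 / (2 * K)) (min (A / (4 * M1)) (min (A / 4)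
    (min (μ / (3 / 2 * A)) (m / (B3 * (10 / 3)))))))), ?_, ?_, ?_, ?_, ?_, ?_, ?_, ?_⟩
  · positivity
  · exact min_le_left _ _
  · exact (min_le_right _ _).trans (min_le_left _ _)
  · have h : min 1 (min d (min (1 / (2 * K)) (min (A / (4 * M1)) (min (A / 4)
      (min (μ / (3 / 2 * A)) (m / (B3 * (10 / 3)))))))) ≤ 1 / (2 * K) :=
      (min_le_right _ _).trans ((min_le_right _ _).trans (min_le_left _ _))
    rw [le_div_iff₀ (by positivity)] at h
    linarith
  · have h : min 1 (min d (min (1 / (2 * K)) (min (A / (4 * M1)) (min (A / 4)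
      (min (μ / (3 / 2 * A)) (m / (B3 * (10 / 3)))))))) ≤ A / (4 * M1) :=
      (min_le_right _ _).trans ((min_le_right _ _).trans ((min_le_right _ _).trans
        (min_le_left _ _)))
    rw [le_div_iff₀ (by positivity)] at h
    linarith
  · have h : min 1 (min d (min (1 / (2 * K)) (min (A / (4 * M1)) (min (A / 4)
      (min (μ / (3 / 2 * A)) (m / (B3 * (10 / 3)))))))) ≤ A / 4 :=
      (min_le_right _ _).trans ((min_le_right _ _).trans ((min_le_right _ _).trans
        ((min_le_right _ _).trans (min_le_left _ _))))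
    linarith
  · have h : min 1 (min d (min (1 / (2 * K)) (min (A / (4 * M1)) (min (A / 4)
      (min (μ / (3 / 2 * A)) (m / (B3 * (10 / 3)))))))) ≤ μ / (3 / 2 * A) :=
      (min_le_right _ _).trans ((min_le_right _ _).trans ((min_le_right _ _).trans
        ((min_le_right _ _).trans ((min_le_right _ _).trans (min_le_left _ _)))))
    rw [le_div_iff₀ (by positivity)] at h
    linarith
  · have h : min 1 (min d (min (1 / (2 * K)) (min (A / (4 * M1)) (min (A / 4)
      (min (μ / (3 / 2 * A)) (m / (B3 * (10 / 3)))))))) ≤ m / (B3 * (10 / 3)) :=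
      (min_le_right _ _).trans ((min_le_right _ _).trans ((min_le_right _ _).trans
        ((min_le_right _ _).trans ((min_le_right _ _).trans (min_le_right _ _)))))
    rw [le_div_iff₀ (by positivity)] at h
    linarith

theorem t_nz : St_nz := by
  intro r g y a d B hN μ hμ
  obtain ⟨hd, hB, hy, ha, hreq, hrder, hgeq⟩ := hN
  have ha0 : 0 < ‖a‖ := norm_pos_iff.2 ha
  have hy0 : 0 < ‖y‖ := norm_pos_iff.2 hy
  obtain ⟨K, hK⟩ : ∃ K : ℝ, K = ‖a‖ + B := ⟨_, rfl⟩
  obtain ⟨M1, hM1⟩ : ∃ M1 : ℝ, M1 = 1 + ‖a‖ + (‖y‖ + 1) * (B + (‖a‖ + B) ^ 2) := ⟨_, rfl⟩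
  obtain ⟨M2, hM2⟩ : ∃ M2 : ℝ, M2 = 2 * ‖a‖ + (‖y‖ + 1) * (4 * (‖a‖ + B) * ‖a‖ + 2 * B) :=
    ⟨_, rfl⟩
  obtain ⟨A, hA⟩ : ∃ A : ℝ, A = ‖a‖ * ‖y‖ := ⟨_, rfl⟩
  have hAp : 0 < A := by rw [hA]; positivity
  have hKp : 0 < K := by rw [hK]; positivity
  have hM1p : 0 < M1 := by rw [hM1]; positivity
  have hM2p : 0 < M2 := by rw [hM2]; positivity
  obtain ⟨B3, hB3⟩ : ∃ B3 : ℝ, B3 = 2 / A * (2 + M2 + 2 * M1) := ⟨_, rfl⟩
  have hB3p : 0 < B3 := by rw [hB3]; positivity
  obtain ⟨η, hη, hη1, hηd, hηK, hηM, hηA, hημ, hηB⟩ :=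
    ex_eta d K M1 A μ B3 (min μ 1) hd hKp hM1p hAp hμ hB3p (by positivity)
  refine ⟨1 / η, η, by positivity, hη, 1, ?_⟩
  intro n hn x hx
  have hn0 : (0 : ℝ) < n := by exact_mod_cast hn
  have hx' : 1 / η ≤ n * ‖x - y‖ := by
    rw [div_le_iff₀ hn0] at hx; linarith
  have hu0 : 0 < ‖x - y‖ := by
    have : 0 < n * ‖x - y‖ := lt_of_lt_of_le (by positivity) hx'
    exact pos_of_mul_pos_right this hn0.le
  have key : ∀ k : ℕ, (∀ j < k, ‖orb r n x j - y‖ ≤ η / Real.sqrt n) →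
      (∀ j < k, 2 * ‖orb r n x j - y‖ ≤ ‖orb r n x (j + 1) - y‖ ∧
        ‖orb r n x (j + 1) - y‖ ≤ μ) ∧ ‖x - y‖ ≤ ‖orb r n x k - y‖ ∧
      ∃ (T Q : ℝ) (D : ℂ), 0 ≤ T ∧ 0 ≤ Q ∧
        T + 2 / (n * ‖orb r n x k - y‖) ≤ 2 / (n * ‖x - y‖) ∧
        Q ≤ 1 / 3 * (n * ‖orb r n x k - y‖ ^ 2) ∧ Q ≤ 4 / 3 * η ∧
        HasDerivAt (fun t => orb r n t k) D x ∧
        ‖(x - y) * D - 2 ^ k * (orb r n x k - y)‖ ≤
          (B3 * (T + Q)) * 2 ^ k * ‖orb r n x k - y‖ := by
    intro k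
    induction k with
    | zero =>
      intro _
      refine ⟨by simp, le_rfl, 0, 0, 1, le_rfl, le_rfl, ?_, ?_, by positivity, ?_, ?_⟩
      · simp [orb]
      · positivity
      · exact hasDerivAt_id x
      · simp [orb]
    | succ k ih =>
      intro hj
      obtain ⟨i1, i2, T, Q, D, hT, hQ, hTb, hQb, hQη, hD, hq⟩ :=
        ih (fun j hjk => hj j (by omega))
      obtain ⟨v, hv⟩ : ∃ v : ℂ, v = orb r n x k - y := ⟨_, rfl⟩
      have horb : orb r n x k = y + v := by rw [hv]; ring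
      rw [← hv] at i2 hTb hQb hq
      have hvj : ‖v‖ ≤ η / Real.sqrt n := by rw [hv]; exact hj k (by omega)
      have hv0 : 0 < ‖v‖ := lt_of_lt_of_le hu0 i2
      have hsq : (n : ℝ) * ‖v‖ ^ 2 ≤ η ^ 2 := by
        have h1 : ‖v‖ ^ 2 ≤ (η / Real.sqrt n) ^ 2 := pow_le_pow_left₀ hv0.le hvj 2
        rw [div_pow, Real.sq_sqrt hn0.le] at h1
        calc (n : ℝ) * ‖v‖ ^ 2 ≤ n * (η ^ 2 / n) := mul_le_mul_of_nonneg_left h1 hn0.le
          _ = η ^ 2 := by field_simp
      have hη2 : η ^ 2 ≤ η := by nlinarith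
      have hvη : ‖v‖ ≤ η := by
        refine hvj.trans (div_le_self hη.le ?_)
        rw [Real.one_le_sqrt]
        exact_mod_cast hn
      have hnv : 1 / η ≤ n * ‖v‖ := hx'.trans (mul_le_mul_of_nonneg_left i2 hn0.le)
      have h1η : 1 ≤ 1 / η := by rw [le_div_iff₀ hη]; linarith
      have hnv1 : 1 ≤ n * ‖v‖ := h1η.trans hnv
      have hinv : 1 / (n * ‖v‖) ≤ η := by
        rw [div_le_iff₀ (by positivity)]
        rw [div_le_iff₀ hη] at hnv
        linarith
      have hinv0 : 0 < 1 / (n * ‖v‖) := by positivity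
      have he : 1 / (n * ‖v‖) + n * ‖v‖ ^ 2 ≤ 2 * η := by linarith
      have hTη : T ≤ 2 * η := by
        have h1 : 2 / (n * ‖x - y‖) ≤ 2 * η := by
          rw [div_le_iff₀ (by positivity)]
          rw [div_le_iff₀ hη] at hx'
          linarith
        have h2 : 0 ≤ 2 / (n * ‖v‖) := by positivity
        linarith
      have hE : B3 * (T + Q) ≤ 1 := by
        have h1 : B3 * (T + Q) ≤ B3 * (2 * η + 4 / 3 * η) :=
          mul_le_mul_of_nonneg_left (by linarith) hB3p.le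
        exact h1.trans (hηB.trans (min_le_right _ _))
      have hE0 : 0 ≤ B3 * (T + Q) := by positivity
      obtain ⟨s1, s2, s3⟩ := step2 (x - y) v ((x - y) * D) y a (r (y + v)) (g (y + v)) n k B
        (B3 * (T + Q)) hB ha hy (hreq v (hvη.trans hηd)) (hgeq v (hvη.trans hηd)) i2 hv0
        (hvη.trans hη1) hnv1
        (by
          rw [← hK]
          calc K * (n * ‖v‖ ^ 2) ≤ K * η := mul_le_mul_of_nonneg_left (by linarith) hKp.le
            _ ≤ 1 / 2 := hηK)
        (by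
          rw [← hM1, ← hA]
          calc M1 * (1 / (n * ‖v‖) + n * ‖v‖ ^ 2) ≤ M1 * (2 * η) :=
                mul_le_mul_of_nonneg_left he hM1p.le
            _ ≤ A / 2 := hηM)
        hE0 hE hq
      rw [← hA, ← hM1, ← hM2, ← hB3] at s3
      rw [← hA] at s1 s2
      have hxy : y + (x - y) = x := by ring
      rw [hxy] at s1 s2 s3
      have horb' : orb r n x (k + 1) - y = x * r (y + v) ^ n - y := by
        simp only [orb]; rw [horb]
      have g1 : 2 * ‖v‖ ≤ ‖orb r n x (k + 1) - y‖ := by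
        rw [horb']
        refine le_trans ?_ s1
        have h1 : 4 / A ≤ n * ‖v‖ := by
          refine le_trans ?_ hnv
          rw [div_le_div_iff₀ hAp hη]; linarith
        rw [div_le_iff₀ hAp] at h1
        have h2 : 4 * ‖v‖ ≤ (n * ‖v‖ * A) * ‖v‖ := mul_le_mul_of_nonneg_right h1 hv0.le
        calc 2 * ‖v‖ = 1 / 2 * (4 * ‖v‖) := by ring
          _ ≤ 1 / 2 * ((n * ‖v‖ * A) * ‖v‖) := by linarith
          _ = _ := by ring
      have g2 : ‖orb r n x (k + 1) - y‖ ≤ μ := by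
        rw [horb']
        refine s2.trans (le_trans ?_ hημ)
        exact mul_le_mul_of_nonneg_left (by linarith) (by positivity)
      have g0 : 0 < ‖orb r n x (k + 1) - y‖ := by linarith
      refine ⟨?_, by linarith, T + 1 / (n * ‖v‖), Q + n * ‖v‖ ^ 2,
        r (y + v) ^ n + x * (n * r (y + v) ^ (n - 1) * (g (y + v) * r (y + v) * D)),
        by positivity, by positivity, ?_, ?_, ?_, ?_, ?_⟩
      · intro j hjk
        rcases Nat.lt_succ_iff_lt_or_eq.1 hjk with h | h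
        · exact i1 j h
        · subst h
          rw [← hv]
          exact ⟨g1, g2⟩
      · have h1 : 2 / (n * ‖orb r n x (k + 1) - y‖) ≤ 1 / (n * ‖v‖) := by
          rw [div_le_div_iff₀ (by positivity) (by positivity)]
          have : (n : ℝ) * (2 * ‖v‖) ≤ n * ‖orb r n x (k + 1) - y‖ :=
            mul_le_mul_of_nonneg_left g1 hn0.le
          linarith
        have h2 : 2 / (n * ‖v‖) = 1 / (n * ‖v‖) + 1 / (n * ‖v‖) := by ring
        linarith
      · have h1 : (2 * ‖v‖) ^ 2 ≤ ‖orb r n x (k + 1) - y‖ ^ 2 :=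
          pow_le_pow_left₀ (by positivity) g1 2
        have h2 : (n : ℝ) * (2 * ‖v‖) ^ 2 ≤ n * ‖orb r n x (k + 1) - y‖ ^ 2 :=
          mul_le_mul_of_nonneg_left h1 hn0.le
        linarith
      · linarith
      · have e1 : (fun t => orb r n t (k + 1)) = fun t => t * r (orb r n t k) ^ n := by
          funext t; rfl
        rw [e1]
        have hr1 : HasDerivAt r (g (y + v) * r (y + v)) (orb r n x k) := by
          rw [horb]; exact hrder v (hvη.trans hηd)
        have hr2 : HasDerivAt (fun t => r (orb r n t k)) (g (y + v) * r (y + v) * D) x :=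
          HasDerivAt.comp x hr1 hD
        have hr3 := hr2.fun_pow n
        have hr4 := (hasDerivAt_id x).fun_mul hr3
        simp only [id, horb, one_mul] at hr4
        exact hr4
      · rw [horb']
        have e1 : (x - y) * (r (y + v) ^ n
              + x * (n * r (y + v) ^ (n - 1) * (g (y + v) * r (y + v) * D)))
            = (x - y) * r (y + v) ^ n + x * n * r (y + v) ^ n * g (y + v) * ((x - y) * D) := by
          have e2 : r (y + v) ^ n = r (y + v) ^ (n - 1) * r (y + v) := by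
            rw [← pow_succ]; congr 1; omega
          rw [e2]; ring
        rw [e1]
        refine s3.trans (le_of_eq ?_)
        ring
  intro k hk
  obtain ⟨k1, k2, T, Q, D, hT, hQ, hTb, hQb, hQη, hD, hq⟩ := key k hk
  refine ⟨k1, D, hD, hq.trans ?_⟩
  have hTη : T ≤ 2 * η := by
    have h1 : 2 / (n * ‖x - y‖) ≤ 2 * η := by
      rw [div_le_iff₀ (by positivity)]
      rw [div_le_iff₀ hη] at hx'
      linarith
    have h2 : 0 ≤ 2 / (n * ‖orb r n x k - y‖) := by positivity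
    linarith
  have hE : B3 * (T + Q) ≤ μ := by
    have h1 : B3 * (T + Q) ≤ B3 * (2 * η + 4 / 3 * η) :=
      mul_le_mul_of_nonneg_left (by linarith) hB3p.le
    exact h1.trans (hηB.trans (min_le_left _ _))
  exact mul_le_mul_of_nonneg_right (mul_le_mul_of_nonneg_right hE (by positivity))
    (norm_nonneg _)

end Pool.Agent.K3h76.CR
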