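import Pool.Agent.K3h20.CR.Stm

/-!
# Project CR: brick NZ (the orbit near the critical point).
-/

set_option autoImplicit false

open Set Filter Topology MeasureTheory Metric

namespace Pool.Agent.K3h76.CR

open Pool.Agent.K3h20.CR

theorem pow_bd (ζ : ℂ) (n : ℕ) :
    ‖(1 + ζ) ^ n - 1 - n * ζ‖ ≤ (1 + ‖ζ‖) ^ n - 1 - n * ‖ζ‖ := by
  induction n with
  | zero => simp
  | succ n ih =>
    have e : (1 + ζ) ^ (n + 1) - 1 - ((n + 1 : ℕ) : ℂ) * ζ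
        = (1 + ζ) * ((1 + ζ) ^ n - 1 - n * ζ) + n * ζ ^ 2 := by
      push_cast; ring
    have e2 : (1 + ‖ζ‖) ^ (n + 1) - 1 - ((n + 1 : ℕ) : ℝ) * ‖ζ‖
        = (1 + ‖ζ‖) * ((1 + ‖ζ‖) ^ n - 1 - n * ‖ζ‖) + n * ‖ζ‖ ^ 2 := by
      push_cast; ring
    rw [e, e2]
    refine (norm_add_le _ _).trans ?_
    have h1 : ‖(1 + ζ) * ((1 + ζ) ^ n - 1 - n * ζ)‖
        ≤ (1 + ‖ζ‖) * ((1 + ‖ζ‖) ^ n - 1 - n * ‖ζ‖) := by
      rw [norm_mul]
      refine mul_le_mul ?_ ih (norm_nonneg _) (by positivity)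
      exact (norm_add_le _ _).trans (by simp)
    have h2 : ‖(n : ℂ) * ζ ^ 2‖ = n * ‖ζ‖ ^ 2 := by simp
    linarith

theorem pow_bd2 (ζ : ℂ) (n : ℕ) (h : n * ‖ζ‖ ≤ 1) :
    ‖(1 + ζ) ^ n - 1 - n * ζ‖ ≤ (n * ‖ζ‖) ^ 2 := by
  refine (pow_bd ζ n).trans ?_
  have h1 : (1 + ‖ζ‖) ^ n ≤ Real.exp (n * ‖ζ‖) := by
    rw [Real.exp_nat_mul]
    exact pow_le_pow_left₀ (by positivity) (by linarith [Real.add_one_le_exp ‖ζ‖]) n
  have h2 := Real.abs_exp_sub_one_sub_id_le (x := n * ‖ζ‖)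
    (by rw [abs_of_nonneg (by positivity)]; exact h)
  have := (abs_le.1 h2).2
  linarith

/-- the first order estimates -/
theorem step1 (u0 v y a rr gg : ℂ) (n : ℕ) (B : ℝ) (hB : 1 ≤ B)
    (hr : ‖rr - 1 - a * v ^ 2‖ ≤ B * ‖v‖ ^ 3) (hg : ‖gg - 2 * a * v‖ ≤ B * ‖v‖ ^ 2)
    (h0 : ‖u0‖ ≤ ‖v‖) (hv : 0 < ‖v‖) (hv1 : ‖v‖ ≤ 1) (hnv : 1 ≤ n * ‖v‖)
    (hK : (‖a‖ + B) * (n * ‖v‖ ^ 2) ≤ 1 / 2) :
    ‖rr ^ n‖ ≤ 2 ∧
    ‖(y + u0) * rr ^ n - y - n * (a * y) * v ^ 2‖ ≤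
      (1 + ‖a‖ + (‖y‖ + 1) * (B + (‖a‖ + B) ^ 2)) * (n * ‖v‖ ^ 2) *
        (1 / (n * ‖v‖) + n * ‖v‖ ^ 2) ∧
    ‖(y + u0) * rr ^ n * gg - 2 * (a * y) * v‖ ≤
      (2 * ‖a‖ + (‖y‖ + 1) * (4 * (‖a‖ + B) * ‖a‖ + 2 * B)) * ‖v‖ * (n * ‖v‖ ^ 2) := by
  set s := ‖v‖ with hs
  set K := ‖a‖ + B with hKdef
  set X : ℝ := n * s ^ 2 with hX
  have hKpos : 0 < K := by have := norm_nonneg a; linarith
  have ha0 : 0 ≤ ‖a‖ := norm_nonneg a
  have hy0 : 0 ≤ ‖y‖ := norm_nonneg y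
  have hn0 : (0 : ℝ) < n := by
    by_contra hc
    have : (n : ℝ) ≤ 0 := not_lt.1 hc
    nlinarith
  have hX0 : 0 < X := by positivity
  have hsX : s ≤ X := by rw [hX]; nlinarith
  have hX1 : X ≤ 1 / 2 := by
    have : 1 * X ≤ K * X := by
      apply mul_le_mul_of_nonneg_right _ hX0.le
      rw [hKdef]; linarith
    linarith
  set e : ℝ := 1 / (n * s) + X with he
  have hXY : X * (1 / (n * s)) = s := by
    rw [hX]; field_simp
  have hYpos : 0 < 1 / (n * s) := by positivity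
  have hXe : X ≤ e := by rw [he]; linarith
  have hsXe : s ≤ X * e := by
    rw [he, mul_add, hXY]; nlinarith
  -- ζ
  set ζ := rr - 1 with hζ
  have hrr : rr = 1 + ζ := by rw [hζ]; ring
  have hζn : ‖ζ‖ ≤ K * s ^ 2 := by
    have h1 : ζ = (rr - 1 - a * v ^ 2) + a * v ^ 2 := by rw [hζ]; ring
    have h2 : ‖ζ‖ ≤ B * s ^ 3 + ‖a‖ * s ^ 2 := by
      rw [h1]
      refine (norm_add_le _ _).trans ?_
      rw [norm_mul, norm_pow]
      linarith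
    have h3 : s ^ 3 ≤ s ^ 2 := by
      have : s ^ 3 = s ^ 2 * s := by ring
      rw [this]; nlinarith [sq_nonneg s]
    have h4 : B * s ^ 3 ≤ B * s ^ 2 := mul_le_mul_of_nonneg_left h3 (by linarith)
    rw [hKdef]; linarith
  have hnζ : n * ‖ζ‖ ≤ K * X := by
    have : (n : ℝ) * ‖ζ‖ ≤ n * (K * s ^ 2) := mul_le_mul_of_nonneg_left hζn hn0.le
    calc (n : ℝ) * ‖ζ‖ ≤ n * (K * s ^ 2) := this
      _ = K * X := by rw [hX]; ring
  have hnζ0 : 0 ≤ n * ‖ζ‖ := by positivity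
  have hR := pow_bd2 ζ n (by linarith)
  have hR2 : (n * ‖ζ‖) ^ 2 ≤ K ^ 2 * X ^ 2 := by
    have := pow_le_pow_left₀ hnζ0 hnζ 2
    calc (n * ‖ζ‖) ^ 2 ≤ (K * X) ^ 2 := this
      _ = K ^ 2 * X ^ 2 := by ring
  set R := (1 + ζ) ^ n - 1 - n * ζ with hRdef
  have hrn : rr ^ n = 1 + (n * ζ + R) := by rw [hrr, hRdef]; ring
  have hδ : ‖(n : ℂ) * ζ + R‖ ≤ 2 * (K * X) := by
    refine (norm_add_le _ _).trans ?_
    rw [norm_mul, Complex.norm_natCast]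
    have : (n * ‖ζ‖) ^ 2 ≤ n * ‖ζ‖ := by nlinarith
    linarith
  have hδ1 : ‖(n : ℂ) * ζ + R‖ ≤ 1 := by linarith
  have hrn2 : ‖rr ^ n‖ ≤ 2 := by
    rw [hrn]
    refine (norm_add_le _ _).trans ?_
    rw [norm_one]; linarith
  have hxn : ‖y + u0‖ ≤ ‖y‖ + 1 := (norm_add_le _ _).trans (by linarith)
  refine ⟨hrn2, ?_, ?_⟩
  · have e1 : (y + u0) * rr ^ n - y - n * (a * y) * v ^ 2
        = u0 + u0 * (n * a * v ^ 2) + (y + u0) * (n * (rr - 1 - a * v ^ 2) + R) := by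
      rw [hrn, hζ]; ring
    rw [e1]
    have t1 : ‖u0 * (n * a * v ^ 2)‖ ≤ s * (‖a‖ * X) := by
      rw [norm_mul, norm_mul, norm_mul, norm_pow, Complex.norm_natCast]
      have : (n : ℝ) * ‖a‖ * ‖v‖ ^ 2 = ‖a‖ * X := by rw [hX, ← hs]; ring
      rw [this]
      exact mul_le_mul_of_nonneg_right h0 (by positivity)
    have t2 : ‖(y + u0) * (n * (rr - 1 - a * v ^ 2) + R)‖
        ≤ (‖y‖ + 1) * (B * s * X + K ^ 2 * X ^ 2) := by
      rw [norm_mul]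
      refine mul_le_mul hxn ?_ (norm_nonneg _) (by positivity)
      refine (norm_add_le _ _).trans ?_
      rw [norm_mul, Complex.norm_natCast]
      have t3 : (n : ℝ) * ‖rr - 1 - a * v ^ 2‖ ≤ B * s * X := by
        calc (n : ℝ) * ‖rr - 1 - a * v ^ 2‖ ≤ n * (B * s ^ 3) :=
              mul_le_mul_of_nonneg_left hr hn0.le
          _ = B * s * X := by rw [hX]; ring
      linarith
    have t4 : s * (‖a‖ * X) ≤ ‖a‖ * (X * e) := by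
      have : s * X ≤ e * X := mul_le_mul_of_nonneg_right (by linarith) hX0.le
      calc s * (‖a‖ * X) = ‖a‖ * (s * X) := by ring
        _ ≤ ‖a‖ * (e * X) := mul_le_mul_of_nonneg_left this ha0
        _ = ‖a‖ * (X * e) := by ring
    have t5 : B * s * X + K ^ 2 * X ^ 2 ≤ (B + K ^ 2) * (X * e) := by
      have h1 : s * X ≤ X * e := by
        have : s * X ≤ e * X := mul_le_mul_of_nonneg_right (by linarith) hX0.le
        linarith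
      have h2 : X ^ 2 ≤ X * e := by
        rw [sq]; exact mul_le_mul_of_nonneg_left hXe hX0.le
      have h3 : B * (s * X) ≤ B * (X * e) := mul_le_mul_of_nonneg_left h1 (by linarith)
      have h4 : K ^ 2 * X ^ 2 ≤ K ^ 2 * (X * e) := mul_le_mul_of_nonneg_left h2 (by positivity)
      calc B * s * X + K ^ 2 * X ^ 2 = B * (s * X) + K ^ 2 * X ^ 2 := by ring
        _ ≤ B * (X * e) + K ^ 2 * (X * e) := by linarith
        _ = _ := by ring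
    have t6 : (‖y‖ + 1) * (B * s * X + K ^ 2 * X ^ 2)
        ≤ (‖y‖ + 1) * ((B + K ^ 2) * (X * e)) := mul_le_mul_of_nonneg_left t5 (by positivity)
    have t7 : ‖u0 + u0 * (n * a * v ^ 2) + (y + u0) * (n * (rr - 1 - a * v ^ 2) + R)‖
        ≤ ‖u0‖ + ‖u0 * (n * a * v ^ 2)‖ + ‖(y + u0) * (n * (rr - 1 - a * v ^ 2) + R)‖ :=
      norm_add₃_le
    calc _ ≤ ‖u0‖ + ‖u0 * (n * a * v ^ 2)‖ + ‖(y + u0) * (n * (rr - 1 - a * v ^ 2) + R)‖ := t7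
      _ ≤ X * e + ‖a‖ * (X * e) + (‖y‖ + 1) * ((B + K ^ 2) * (X * e)) := by linarith
      _ = _ := by ring
  · have e2 : (y + u0) * rr ^ n * gg - 2 * (a * y) * v
        = u0 * (2 * a * v) + (y + u0) * (n * ζ + R) * (2 * a * v)
          + (y + u0) * rr ^ n * (gg - 2 * a * v) := by
      rw [hrn]; ring
    rw [e2]
    have n1 : ‖2 * a * v‖ = 2 * ‖a‖ * s := by
      rw [norm_mul, norm_mul]; simp [hs]
    have t1 : ‖u0 * (2 * a * v)‖ ≤ s * (2 * ‖a‖ * s) := by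
      rw [norm_mul, n1]
      exact mul_le_mul_of_nonneg_right h0 (by positivity)
    have t2 : ‖(y + u0) * (n * ζ + R) * (2 * a * v)‖
        ≤ (‖y‖ + 1) * (2 * (K * X)) * (2 * ‖a‖ * s) := by
      rw [norm_mul, norm_mul, n1]
      refine mul_le_mul_of_nonneg_right ?_ (by positivity)
      exact mul_le_mul hxn hδ (norm_nonneg _) (by positivity)
    have t3 : ‖(y + u0) * rr ^ n * (gg - 2 * a * v)‖ ≤ (‖y‖ + 1) * 2 * (B * s ^ 2) := by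
      rw [norm_mul, norm_mul]
      refine mul_le_mul ?_ hg (norm_nonneg _) (by positivity)
      exact mul_le_mul hxn hrn2 (norm_nonneg _) (by positivity)
    have t4 : s * s ≤ s * X := mul_le_mul_of_nonneg_left hsX hv.le
    have t5 : s * (2 * ‖a‖ * s) ≤ 2 * ‖a‖ * (s * X) := by
      calc s * (2 * ‖a‖ * s) = 2 * ‖a‖ * (s * s) := by ring
        _ ≤ _ := mul_le_mul_of_nonneg_left t4 (by positivity)
    have t6 : (‖y‖ + 1) * 2 * (B * s ^ 2) ≤ (‖y‖ + 1) * (2 * B) * (s * X) := by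
      calc (‖y‖ + 1) * 2 * (B * s ^ 2) = (‖y‖ + 1) * (2 * B) * (s * s) := by ring
        _ ≤ _ := mul_le_mul_of_nonneg_left t4 (by positivity)
    calc _ ≤ ‖u0 * (2 * a * v)‖ + ‖(y + u0) * (n * ζ + R) * (2 * a * v)‖
          + ‖(y + u0) * rr ^ n * (gg - 2 * a * v)‖ := norm_add₃_le
      _ ≤ 2 * ‖a‖ * (s * X) + (‖y‖ + 1) * (2 * (K * X)) * (2 * ‖a‖ * s)
          + (‖y‖ + 1) * (2 * B) * (s * X) := by linarith
      _ = _ := by ring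

/-- one step of the recursion -/
theorem step2 (u0 v w y a rr gg : ℂ) (n j : ℕ) (B E : ℝ) (hB : 1 ≤ B) (ha : a ≠ 0) (hy : y ≠ 0)
    (hr : ‖rr - 1 - a * v ^ 2‖ ≤ B * ‖v‖ ^ 3) (hg : ‖gg - 2 * a * v‖ ≤ B * ‖v‖ ^ 2)
    (h0 : ‖u0‖ ≤ ‖v‖) (hv : 0 < ‖v‖) (hv1 : ‖v‖ ≤ 1) (hnv : 1 ≤ n * ‖v‖)
    (hK : (‖a‖ + B) * (n * ‖v‖ ^ 2) ≤ 1 / 2)
    (hM : (1 + ‖a‖ + (‖y‖ + 1) * (B + (‖a‖ + B) ^ 2)) * (1 / (n * ‖v‖) + n * ‖v‖ ^ 2)
      ≤ ‖a‖ * ‖y‖ / 2) (hE0 : 0 ≤ E) (hE : E ≤ 1) (hw : ‖w - 2 ^ j * v‖ ≤ E * 2 ^ j * ‖v‖) :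
    ‖a‖ * ‖y‖ / 2 * (n * ‖v‖ ^ 2) ≤ ‖(y + u0) * rr ^ n - y‖ ∧
    ‖(y + u0) * rr ^ n - y‖ ≤ 3 / 2 * (‖a‖ * ‖y‖) * (n * ‖v‖ ^ 2) ∧
    ‖(u0 * rr ^ n + (y + u0) * n * rr ^ n * gg * w) - 2 ^ (j + 1) * ((y + u0) * rr ^ n - y)‖ ≤
      (E + 2 / (‖a‖ * ‖y‖) * (2 + (2 * ‖a‖ + (‖y‖ + 1) * (4 * (‖a‖ + B) * ‖a‖ + 2 * B)) +
        2 * (1 + ‖a‖ + (‖y‖ + 1) * (B + (‖a‖ + B) ^ 2))) *
        (1 / (n * ‖v‖) + n * ‖v‖ ^ 2)) * 2 ^ (j + 1) * ‖(y + u0) * rr ^ n - y‖ := by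
  obtain ⟨b1, b2, b3⟩ := step1 u0 v y a rr gg n B hB hr hg h0 hv hv1 hnv hK
  have ha0 : 0 ≤ ‖a‖ := norm_nonneg a
  have hy0 : 0 ≤ ‖y‖ := norm_nonneg y
  have hKpos : 0 < ‖a‖ + B := by linarith
  have hn0 : (0 : ℝ) < n := by
    by_contra hc
    have : (n : ℝ) ≤ 0 := not_lt.1 hc
    nlinarith
  set M1 : ℝ := 1 + ‖a‖ + (‖y‖ + 1) * (B + (‖a‖ + B) ^ 2) with hM1
  set M2 : ℝ := 2 * ‖a‖ + (‖y‖ + 1) * (4 * (‖a‖ + B) * ‖a‖ + 2 * B) with hM2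
  set s := ‖v‖ with hs
  set X : ℝ := n * s ^ 2 with hX
  set e : ℝ := 1 / (n * s) + X with he
  set A : ℝ := ‖a‖ * ‖y‖ with hA
  set u' : ℂ := (y + u0) * rr ^ n - y with hu'
  have hM10 : 0 ≤ M1 := by rw [hM1]; positivity
  have hM20 : 0 ≤ M2 := by rw [hM2]; positivity
  have hX0 : 0 < X := by positivity
  have hAp : 0 < A := by rw [hA]; exact mul_pos (norm_pos_iff.2 ha) (norm_pos_iff.2 hy)
  have hYpos : 0 < 1 / (n * s) := by positivity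
  have he0 : 0 < e := by rw [he]; linarith
  have hXY : X * (1 / (n * s)) = s := by
    rw [hX]; field_simp
  have hsXe : s ≤ X * e := by
    rw [he, mul_add, hXY]; nlinarith
  have main : ‖(n : ℂ) * (a * y) * v ^ 2‖ = A * X := by
    rw [norm_mul, norm_mul, norm_mul, norm_pow, Complex.norm_natCast, hA, hX, ← hs]; ring
  have b2' : ‖u' - n * (a * y) * v ^ 2‖ ≤ M1 * X * e := b2
  have hME : M1 * X * e ≤ A / 2 * X := by
    calc M1 * X * e = (M1 * e) * X := by ring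
      _ ≤ A / 2 * X := mul_le_mul_of_nonneg_right hM hX0.le
  have low : A * X ≤ ‖u'‖ + M1 * X * e := by
    have : (n : ℂ) * (a * y) * v ^ 2 = u' - (u' - n * (a * y) * v ^ 2) := by ring
    rw [← main, this]
    exact (norm_sub_le _ _).trans (by linarith)
  have up : ‖u'‖ ≤ A * X + M1 * X * e := by
    have : u' = n * (a * y) * v ^ 2 + (u' - n * (a * y) * v ^ 2) := by ring
    rw [this]
    refine (norm_add_le _ _).trans ?_
    rw [main]; linarith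
  have low2 : A / 2 * X ≤ ‖u'‖ := by linarith
  refine ⟨low2, by linarith, ?_⟩
  have dec : (u0 * rr ^ n + (y + u0) * n * rr ^ n * gg * w) - 2 ^ (j + 1) * u'
      = u0 * rr ^ n + (n * w) * ((y + u0) * rr ^ n * gg - 2 * (a * y) * v)
        + (2 * n * (a * y) * v * (w - 2 ^ j * v)
          + 2 ^ (j + 1) * -(u' - n * (a * y) * v ^ 2)) := by
    ring
  rw [dec]
  have p2 : (0 : ℝ) < 2 ^ j := by positivity
  have hwn : ‖w‖ ≤ 2 ^ (j + 1) * s := by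
    have : w = (w - 2 ^ j * v) + 2 ^ j * v := by ring
    rw [this]
    refine (norm_add_le _ _).trans ?_
    rw [norm_mul, norm_pow]
    have h2 : ‖(2 : ℂ)‖ = 2 := by simp
    rw [h2, ← hs]
    have : E * 2 ^ j * s ≤ 1 * 2 ^ j * s := by
      have : 0 ≤ 2 ^ j * s := by positivity
      nlinarith
    calc _ ≤ 1 * 2 ^ j * s + 2 ^ j * s := by linarith
      _ = 2 ^ (j + 1) * s := by ring
  have t1 : ‖u0 * rr ^ n‖ ≤ 2 ^ (j + 1) * (2 * (X * e)) := by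
    rw [norm_mul]
    have h1 : ‖u0‖ * ‖rr ^ n‖ ≤ s * 2 := mul_le_mul h0 b1 (norm_nonneg _) hv.le
    have h2 : (1 : ℝ) ≤ 2 ^ (j + 1) := one_le_pow₀ (by norm_num)
    have h3 : 0 ≤ 2 * (X * e) := by positivity
    nlinarith
  have t2 : ‖(n * w) * ((y + u0) * rr ^ n * gg - 2 * (a * y) * v)‖
      ≤ 2 ^ (j + 1) * (M2 * (X * e)) := by
    rw [norm_mul, norm_mul, Complex.norm_natCast]
    have h1 : (n : ℝ) * ‖w‖ * ‖(y + u0) * rr ^ n * gg - 2 * (a * y) * v‖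
        ≤ n * (2 ^ (j + 1) * s) * (M2 * s * X) := by
      refine mul_le_mul ?_ b3 (norm_nonneg _) (by positivity)
      exact mul_le_mul_of_nonneg_left hwn hn0.le
    have h2 : (n : ℝ) * (2 ^ (j + 1) * s) * (M2 * s * X) = 2 ^ (j + 1) * (M2 * (X * X)) := by
      rw [hX]; ring
    have h3 : X * X ≤ X * e := mul_le_mul_of_nonneg_left (by rw [he]; linarith) hX0.le
    have h4 : M2 * (X * X) ≤ M2 * (X * e) := mul_le_mul_of_nonneg_left h3 hM20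
    have h5 : (2 : ℝ) ^ (j + 1) * (M2 * (X * X)) ≤ 2 ^ (j + 1) * (M2 * (X * e)) :=
      mul_le_mul_of_nonneg_left h4 (by positivity)
    linarith
  have t3 : ‖2 * n * (a * y) * v * (w - 2 ^ j * v)‖ ≤ 2 ^ (j + 1) * (E * (A * X)) := by
    rw [norm_mul]
    have h1 : ‖2 * (n : ℂ) * (a * y) * v‖ = 2 * n * A * s := by
      rw [norm_mul, norm_mul, norm_mul, norm_mul, Complex.norm_natCast, hA, ← hs]
      simp
    rw [h1]
    calc 2 * n * A * s * ‖w - 2 ^ j * v‖ ≤ 2 * n * A * s * (E * 2 ^ j * s) :=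
          mul_le_mul_of_nonneg_left hw (by positivity)
      _ = 2 ^ (j + 1) * (E * (A * X)) := by rw [hX]; ring
  have t4 : ‖(2 : ℂ) ^ (j + 1) * -(u' - n * (a * y) * v ^ 2)‖ ≤ 2 ^ (j + 1) * (M1 * (X * e)) := by
    rw [norm_mul, norm_neg, norm_pow]
    have h2 : ‖(2 : ℂ)‖ = 2 := by simp
    rw [h2]
    refine mul_le_mul_of_nonneg_left ?_ (by positivity)
    linarith
  have t5 : E * (A * X) ≤ E * ‖u'‖ + M1 * (X * e) := by
    have h1 : E * (A * X) ≤ E * (‖u'‖ + M1 * X * e) := mul_le_mul_of_nonneg_left low hE0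
    have h2 : E * (M1 * X * e) ≤ 1 * (M1 * X * e) :=
      mul_le_mul_of_nonneg_right hE (by positivity)
    linarith
  have t6 : X * e ≤ 2 / A * e * ‖u'‖ := by
    have h1 : X ≤ 2 / A * ‖u'‖ := by
      rw [div_mul_eq_mul_div, le_div_iff₀ hAp]; linarith
    calc X * e ≤ (2 / A * ‖u'‖) * e := mul_le_mul_of_nonneg_right h1 he0.le
      _ = _ := by ring
  have t7 : ‖u0 * rr ^ n + (n * w) * ((y + u0) * rr ^ n * gg - 2 * (a * y) * v)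
        + (2 * n * (a * y) * v * (w - 2 ^ j * v)
          + 2 ^ (j + 1) * -(u' - n * (a * y) * v ^ 2))‖
      ≤ 2 ^ (j + 1) * (2 * (X * e)) + 2 ^ (j + 1) * (M2 * (X * e))
        + (2 ^ (j + 1) * (E * (A * X)) + 2 ^ (j + 1) * (M1 * (X * e))) := by
    refine (norm_add_le _ _).trans (add_le_add ((norm_add_le _ _).trans (add_le_add t1 t2)) ?_)
    exact (norm_add_le _ _).trans (add_le_add t3 t4)
  refine t7.trans ?_
  have t8 : 2 * (X * e) + M2 * (X * e) + (E * (A * X) + M1 * (X * e))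
      ≤ (E + 2 / A * (2 + M2 + 2 * M1) * e) * ‖u'‖ := by
    have h1 : (2 + M2 + 2 * M1) * (X * e) ≤ (2 + M2 + 2 * M1) * (2 / A * e * ‖u'‖) :=
      mul_le_mul_of_nonneg_left t6 (by positivity)
    calc _ ≤ E * ‖u'‖ + (2 + M2 + 2 * M1) * (X * e) := by linarith
      _ ≤ E * ‖u'‖ + (2 + M2 + 2 * M1) * (2 / A * e * ‖u'‖) := by linarith
      _ = _ := by ring
  calc _ = 2 ^ (j + 1) * (2 * (X * e) + M2 * (X * e) + (E * (A * X) + M1 * (X * e))) := by ring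
    _ ≤ 2 ^ (j + 1) * ((E + 2 / A * (2 + M2 + 2 * M1) * e) * ‖u'‖) :=
      mul_le_mul_of_nonneg_left t8 (by positivity)
    _ = _ := by ring

end Pool.Agent.K3h76.CR
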